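import Pool.Agent.Helper10_BAN.Stmt

set_option autoImplicit false

namespace Pool.Agent.BAN.H14

open MeasureTheory Filter Topology Set
open scoped NNReal

theorem ana (hSCAL : SCALStmt) (hPOS : POSStmt) (hPOLY : POLYStmt) (hALG : ALGStmt) :
    ANAStmt := by
  intro E _ _ _ _ _ _ μ _ Φ f A B Q w L c S hc hΦc hΦpos hΦhom hfpos hfhom hfsub hA hB hQ
    hA0 hB0 hQ0 hQA hQB hQc hw hS hSw hΦAB hnull
  set N := Module.finrank ℝ E with hN
  have key : ∀ i : ℕ, ∃ P : Polynomial ℝ, ∀ t : ℝ, (f 1 t) ^ (N + 2 * i) = P.eval t := by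
    intro i
    obtain ⟨P, hP⟩ := hPOLY E μ A B w L c S hc hA hB hw hS hSw i
    have hci := hPOS E μ Φ hΦc hΦpos hΦhom i
    set ci := ∫ x, ‖x‖ ^ (2 * i) * max 0 (1 - Φ x) ∂μ with hcidef
    refine ⟨Polynomial.C (ci⁻¹) * P, fun t => ?_⟩
    have hG : LipschitzWith (L + ‖t‖₊ * L) (fun x => A x + t • B x) := by
      have h2 : LipschitzWith (‖t‖₊ * L) (fun x => t • B x) := by
        have := (lipschitzWith_smul (α := ℝ) (β := E) t).comp hB
        exact this
      exact hA.add h2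
    have h1 := hSCAL E μ Φ Q (fun x => A x + t • B x) w (L + ‖t‖₊ * L) c (f 1 t) S hc
      (hfpos 1 t (Or.inl one_ne_zero)) hΦc hΦpos hΦhom
      (hQ.weaken (by simp)) hG hQ0 (by simp [hA0, hB0])
      (by
        intro x
        rw [inner_add_right, inner_smul_right, hQA, hQB]; simp)
      hQc hS hSw
      (by
        intro x
        have := hΦAB x 1 t
        rwa [one_smul] at this)
      (by
        intro ε hε
        have := hnull ε 1 t hε (Or.inl one_ne_zero)
        simpa only [one_smul] using this)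
      i
    rw [hP t] at h1
    rw [Polynomial.eval_mul, Polynomial.eval_C, h1]
    rw [← hcidef, ← hN]
    field_simp
  obtain ⟨P0, hP0⟩ := key 0
  obtain ⟨P1, hP1⟩ := key 1
  have hlin : ∀ t : ℝ, f 0 t = |t| * f 0 1 := by
    intro t
    have := hfhom t 0 1
    simpa using this
  have hlin' : ∀ t : ℝ, f t 0 = |t| * f 1 0 := by
    intro t
    have := hfhom t 1 0
    simpa using this
  have hbd : ∀ t : ℝ, f 1 t ≤ f 1 0 + f 0 1 * |t| := by
    intro t
    have := hfsub 1 0 0 t
    rw [hlin t] at this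
    simp only [add_zero, zero_add] at this
    linarith [mul_comm (|t|) (f 0 1)]
  obtain ⟨α, β, γ, hq⟩ := hALG (fun t => f 1 t) P0 P1 N (f 1 0) (f 0 1)
    (fun t => hfpos 1 t (Or.inl one_ne_zero)) hbd (fun t => by simpa using hP0 t)
    (fun t => by simpa using hP1 t)
  have hα : α = f 1 0 ^ 2 := by
    have := hq 0
    simpa using this.symm
  -- lower bound
  have ha : 0 < f 1 0 := hfpos 1 0 (Or.inl one_ne_zero)
  have hb : 0 < f 0 1 := hfpos 0 1 (Or.inr one_ne_zero)
  have hγ : γ = f 0 1 ^ 2 := by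
    by_contra hne
    have hδ : 0 < |γ - f 0 1 ^ 2| := abs_pos.mpr (sub_ne_zero.mpr hne)
    -- for t ≥ 0 : |f 1 t - t f 0 1| ≤ f 1 0
    have h1 : ∀ t : ℝ, 0 ≤ t → |f 1 t - t * f 0 1| ≤ f 1 0 := by
      intro t ht
      rw [abs_le]
      constructor
      · have h := hfsub 1 t (-1) 0
        simp only [add_neg_cancel, add_zero] at h
        rw [hlin t, hlin' (-1), abs_of_nonneg ht] at h
        simp only [abs_neg, abs_one, one_mul] at h
        linarith
      · have h := hbd t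
        rw [abs_of_nonneg ht] at h
        linarith [mul_comm t (f 0 1)]
    have h2 : ∀ t : ℝ, 0 ≤ t → |γ - f 0 1 ^ 2| * t ^ 2 ≤
        (2 * f 1 0 * f 0 1 + |β|) * t + (f 1 0 ^ 2 + |α|) := by
      intro t ht
      have h3 := h1 t ht
      set u := f 1 t - t * f 0 1 with hu
      have hft : f 1 t = u + t * f 0 1 := by rw [hu]; ring
      have h4 := hq t
      rw [hft] at h4
      have h5 : (γ - f 0 1 ^ 2) * t ^ 2 = u ^ 2 + 2 * u * (t * f 0 1) - α - β * t := by
        nlinarith [h4]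
      have h6 : |γ - f 0 1 ^ 2| * t ^ 2 = |u ^ 2 + 2 * u * (t * f 0 1) - α - β * t| := by
        rw [← h5, abs_mul, abs_of_nonneg (sq_nonneg t)]
      rw [h6]
      have h7 : u ^ 2 ≤ f 1 0 ^ 2 := by
        rw [← sq_abs u]
        exact pow_le_pow_left₀ (abs_nonneg _) h3 2
      have h8 : |2 * u * (t * f 0 1)| ≤ 2 * f 1 0 * f 0 1 * t := by
        rw [abs_mul, abs_mul, abs_mul, abs_of_nonneg ht, abs_of_pos hb]
        have : |(2 : ℝ)| = 2 := by norm_num
        rw [this]
        have h9 : |u| * (t * f 0 1) ≤ f 1 0 * (t * f 0 1) :=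
          mul_le_mul_of_nonneg_right h3 (by positivity)
        nlinarith [h9]
      have h10 : |β * t| = |β| * t := by rw [abs_mul, abs_of_nonneg ht]
      calc |u ^ 2 + 2 * u * (t * f 0 1) - α - β * t|
          ≤ |u ^ 2 + 2 * u * (t * f 0 1) - α| + |β * t| := abs_sub _ _
        _ ≤ (|u ^ 2 + 2 * u * (t * f 0 1)| + |α|) + |β * t| := by
            gcongr; exact abs_sub _ _
        _ ≤ ((|u ^ 2| + |2 * u * (t * f 0 1)|) + |α|) + |β * t| := by
            gcongr; exact abs_add_le _ _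
        _ ≤ (2 * f 1 0 * f 0 1 + |β|) * t + (f 1 0 ^ 2 + |α|) := by
            rw [abs_of_nonneg (sq_nonneg u), h10]
            nlinarith [h7, h8]
    set K := 2 * f 1 0 * f 0 1 + |β| with hK
    set K' := f 1 0 ^ 2 + |α| with hK'
    have hK0 : 0 ≤ K := by positivity
    have hK0' : 0 ≤ K' := by positivity
    set t := (K + K' + 1) / |γ - f 0 1 ^ 2| + 1 with ht
    have ht1 : 1 ≤ t := by
      rw [ht]; have : 0 ≤ (K + K' + 1) / |γ - f 0 1 ^ 2| := by positivity
      linarith
    have h3 := h2 t (by linarith)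
    have h4 : K + K' + 1 ≤ |γ - f 0 1 ^ 2| * t := by
      rw [ht, mul_add, mul_div_cancel₀ _ hδ.ne']
      linarith
    have h5 : (K + K' + 1) * t ≤ |γ - f 0 1 ^ 2| * t ^ 2 := by
      nlinarith [mul_le_mul_of_nonneg_right h4 (by linarith : (0:ℝ) ≤ t)]
    nlinarith
  have e1 := hq 1
  have e2 := hq (-1)
  rw [e1, e2, hα, hγ]
  ring

end Pool.Agent.BAN.H14
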