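import Pool.Agent.Helper10_BAN.Stmt

set_option autoImplicit false

namespace Pool.Agent.BAN.H14

open MeasureTheory Filter Topology Set
open scoped NNReal

theorem det_bound (E : Type) [NormedAddCommGroup E] [InnerProductSpace ℝ E]
    [FiniteDimensional ℝ E] (K : ℝ) :
    ∃ C : ℝ, 0 ≤ C ∧ ∀ A : E →L[ℝ] E, ‖A‖ ≤ K → |A.det| ≤ C := by
  haveI : ProperSpace (E →L[ℝ] E) := FiniteDimensional.proper ℝ (E →L[ℝ] E)
  obtain ⟨C, hC⟩ := (isCompact_closedBall (0 : E →L[ℝ] E) K).exists_bound_of_continuousOn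
    (ContinuousLinearMap.continuous_det.continuousOn)
  refine ⟨max C 0, le_max_right _ _, fun A hA => ?_⟩
  have := hC A (by simpa using hA)
  rw [Real.norm_eq_abs] at this
  exact this.trans (le_max_left _ _)

theorem lim (hDEG : DEGStmt) (hND : NDStmt) : LIMStmt := by
  intro E _ _ _ _ _ μ _ Q G L c S hc hQ hG hQ0 hG0 hQG hQc hS hSG hnull g hg hgs
  have hQlow : ∀ x, c * ‖x‖ ≤ ‖Q x‖ := by
    intro x
    rcases eq_or_ne x 0 with rfl | hx
    · simp
    · have h1 := hQc x
      have h2 := real_inner_le_norm x (Q x)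
      have hx' : 0 < ‖x‖ := norm_pos_iff.mpr hx
      nlinarith
  have hQup : ∀ x, ‖Q x‖ ≤ L * ‖x‖ := by
    intro x
    have := hQ.dist_le_mul x 0
    simpa [hQ0] using this
  -- the identity for each ε
  have step : ∀ ε : ℝ, 0 < ε →
      ∫ x in S, g (ε • Q x + G x) * (fderiv ℝ (fun x => ε • Q x + G x) x).det ∂μ =
        ∫ x, g x ∂μ := by
    intro ε hε
    have hF : LipschitzWith (‖ε‖₊ * L + L) (fun x => ε • Q x + G x) := by
      have h2 : LipschitzWith (‖ε‖₊ * L) (fun x => ε • Q x) := by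
        have := (lipschitzWith_smul (α := ℝ) (β := E) ε).comp hQ
        exact this
      exact h2.add hG
    have hF0 : (fun x => ε • Q x + G x) 0 = 0 := by simp [hQ0, hG0]
    set m := min c (ε * c ^ 2) with hm
    have hmpos : 0 < m := lt_min hc (by positivity)
    have hL1 : (0 : ℝ) < L + 1 := by positivity
    have hlow : ∀ t : ℝ, 0 ≤ t → t ≤ 1 → ∀ x,
        m / (L + 1) * ‖x‖ ≤ ‖(1 - t) • x + t • (fun x => ε • Q x + G x) x‖ := by
      intro t ht0 ht1 x
      rcases eq_or_ne x 0 with rfl | hx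
      · simp
      have hx' : 0 < ‖x‖ := norm_pos_iff.mpr hx
      have h1 : inner ℝ (Q x) ((1 - t) • x + t • (ε • Q x + G x)) =
          (1 - t) * inner ℝ x (Q x) + t * (ε * ‖Q x‖ ^ 2) := by
        rw [inner_add_right, inner_smul_right, inner_smul_right, inner_add_right,
          inner_smul_right, hQG, real_inner_self_eq_norm_sq, real_inner_comm]
        ring
      have h2 : m * ‖x‖ ^ 2 ≤ (1 - t) * inner ℝ x (Q x) + t * (ε * ‖Q x‖ ^ 2) := by
        have a1 : m * ‖x‖ ^ 2 ≤ inner ℝ x (Q x) :=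
          (mul_le_mul_of_nonneg_right (min_le_left _ _) (sq_nonneg _)).trans (hQc x)
        have a2 : m * ‖x‖ ^ 2 ≤ ε * ‖Q x‖ ^ 2 := by
          have b1 : m * ‖x‖ ^ 2 ≤ (ε * c ^ 2) * ‖x‖ ^ 2 :=
            mul_le_mul_of_nonneg_right (min_le_right _ _) (sq_nonneg _)
          have b2 : (c * ‖x‖) ^ 2 ≤ ‖Q x‖ ^ 2 :=
            pow_le_pow_left₀ (by positivity) (hQlow x) 2
          have b3 : ε * (c * ‖x‖) ^ 2 ≤ ε * ‖Q x‖ ^ 2 :=
            mul_le_mul_of_nonneg_left b2 hε.le
          calc m * ‖x‖ ^ 2 ≤ (ε * c ^ 2) * ‖x‖ ^ 2 := b1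
            _ = ε * (c * ‖x‖) ^ 2 := by ring
            _ ≤ _ := b3
        nlinarith [mul_le_mul_of_nonneg_left a1 (by linarith : 0 ≤ 1 - t),
          mul_le_mul_of_nonneg_left a2 ht0]
      have h3 := real_inner_le_norm (Q x) ((1 - t) • x + t • (ε • Q x + G x))
      rw [h1] at h3
      have h4 : ‖Q x‖ * ‖(1 - t) • x + t • (ε • Q x + G x)‖ ≤
          ((L + 1) * ‖x‖) * ‖(1 - t) • x + t • (ε • Q x + G x)‖ := by
        apply mul_le_mul_of_nonneg_right _ (norm_nonneg _)
        have := hQup x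
        nlinarith
      have h5 : m * ‖x‖ ^ 2 ≤ ((L + 1) * ‖x‖) * ‖(1 - t) • x + t • (ε • Q x + G x)‖ :=
        h2.trans (h3.trans h4)
      have h6 : m * ‖x‖ ≤ (L + 1) * ‖(1 - t) • x + t • (ε • Q x + G x)‖ := by
        have : ‖x‖ * (m * ‖x‖) ≤
            ‖x‖ * ((L + 1) * ‖(1 - t) • x + t • (ε • Q x + G x)‖) := by nlinarith [h5]
        exact le_of_mul_le_mul_left this hx'
      rw [div_mul_eq_mul_div, div_le_iff₀ hL1]
      simp only
      linarith [mul_comm ((L : ℝ) + 1) ‖(1 - t) • x + t • (ε • Q x + G x)‖]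
    have h1 := hDEG E μ (fun x => ε • Q x + G x) (‖ε‖₊ * L + L) (m / (L + 1)) hF hF0
      (by positivity) hlow g hg hgs
    have h2 := hND E μ (fun x => ε • Q x + G x) (‖ε‖₊ * L + L) Sᶜ hF hS.compl (hnull ε hε)
    rw [← h1]
    apply setIntegral_eq_integral_of_ae_compl_eq_zero
    rw [ae_restrict_iff' hS.compl] at h2
    filter_upwards [h2] with x hx hxS
    rw [hx hxS, mul_zero]
  -- limit
  obtain ⟨M, hM⟩ := hgs.exists_bound_of_continuous hg
  obtain ⟨R, hR⟩ : ∃ R : ℝ, ∀ y, g y ≠ 0 → ‖y‖ ≤ R := by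
    obtain ⟨R, hR⟩ := hgs.isBounded.exists_norm_le
    exact ⟨R, fun y hy => hR y (subset_tsupport _ hy)⟩
  obtain ⟨C, hC0, hC⟩ := det_bound E (2 * L)
  have hM0 : 0 ≤ M := (norm_nonneg _).trans (hM 0)
  set ε : ℕ → ℝ := fun n => 1 / ((n : ℝ) + 1) with hε
  have hεpos : ∀ n, 0 < ε n := fun n => by simp only [hε]; positivity
  have hεle : ∀ n, ε n ≤ 1 := fun n => by
    simp only [hε]
    rw [div_le_one (by positivity)]
    have : (0 : ℝ) ≤ n := Nat.cast_nonneg n
    linarith
  have hεlim : Tendsto ε atTop (𝓝 0) := tendsto_one_div_add_atTop_nhds_zero_nat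
  have hlim : Tendsto (fun n => ∫ x in S, g (ε n • Q x + G x) *
      (fderiv ℝ (fun x => ε n • Q x + G x) x).det ∂μ) atTop
      (𝓝 (∫ x in S, g (G x) * (fderiv ℝ G x).det ∂μ)) := by
    apply tendsto_integral_of_dominated_convergence
      (fun x => (Metric.closedBall (0 : E) (R / c)).indicator (fun _ => M * C) x)
    · intro n
      have hcont : Continuous (fun x => ε n • Q x + G x) :=
        (hQ.continuous.const_smul _).add hG.continuous
      have h1 : Measurable (fun x => g (ε n • Q x + G x)) := (hg.comp hcont).measurable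
      have h2 : Measurable (fun x => (fderiv ℝ (fun x => ε n • Q x + G x) x).det) :=
        ContinuousLinearMap.continuous_det.measurable.comp (measurable_fderiv ℝ _)
      exact (h1.mul h2).aestronglyMeasurable
    · rw [integrable_indicator_iff Metric.isClosed_closedBall.measurableSet]
      apply (integrableOn_const (μ := μ.restrict S) ?_)
      refine ne_of_lt (lt_of_le_of_lt (Measure.restrict_apply_le _ _) ?_)
      exact measure_closedBall_lt_top
    · intro n
      rw [ae_restrict_iff' hS]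
      refine Eventually.of_forall fun x hx => ?_
      by_cases hgx : g (ε n • Q x + G x) = 0
      · rw [hgx, zero_mul, norm_zero]
        exact indicator_nonneg (fun _ _ => by positivity) _
      · have h1 := hR _ hgx
        have h2 : ‖G x‖ ≤ ‖ε n • Q x + G x‖ := by
          have h3 : ‖ε n • Q x + G x‖ ^ 2 = ‖ε n • Q x‖ ^ 2 + ‖G x‖ ^ 2 := by
            rw [norm_add_sq_real, inner_smul_left, hQG]; simp
          have h4 : ‖G x‖ ^ 2 ≤ ‖ε n • Q x + G x‖ ^ 2 := by
            rw [h3]; nlinarith [sq_nonneg ‖ε n • Q x‖]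
          exact (sq_le_sq₀ (norm_nonneg _) (norm_nonneg _)).mp h4
        have h5 := hSG x hx
        have h6 : x ∈ Metric.closedBall (0 : E) (R / c) := by
          rw [mem_closedBall_zero_iff, le_div_iff₀ hc]
          linarith [mul_comm c ‖x‖]
        rw [indicator_of_mem h6, norm_mul]
        have h7 : ‖fderiv ℝ (fun x => ε n • Q x + G x) x‖ ≤ 2 * L := by
          have hF : LipschitzWith (‖ε n‖₊ * L + L) (fun x => ε n • Q x + G x) := by
            have h2 : LipschitzWith (‖ε n‖₊ * L) (fun x => ε n • Q x) := by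
              have := (lipschitzWith_smul (α := ℝ) (β := E) (ε n)).comp hQ
              exact this
            exact h2.add hG
          refine (norm_fderiv_le_of_lipschitz ℝ hF).trans ?_
          push_cast
          have : ‖ε n‖ ≤ 1 := by rw [Real.norm_of_nonneg (hεpos n).le]; exact hεle n
          have hL0 : (0 : ℝ) ≤ L := L.coe_nonneg
          nlinarith
        exact mul_le_mul (hM _) (by rw [Real.norm_eq_abs]; exact hC _ h7) (norm_nonneg _) hM0
    · have hQd := hQ.ae_differentiableAt (μ := μ)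
      have hGd := hG.ae_differentiableAt (μ := μ)
      refine ae_restrict_of_ae ?_
      filter_upwards [hQd, hGd] with x hx1 hx2
      have h1 : ∀ n, fderiv ℝ (fun x => ε n • Q x + G x) x =
          ε n • fderiv ℝ Q x + fderiv ℝ G x := by
        intro n
        exact ((hx1.hasFDerivAt.const_smul (ε n)).add hx2.hasFDerivAt).fderiv
      simp only [h1]
      have h2 : Tendsto (fun n => ε n • Q x + G x) atTop (𝓝 (G x)) := by
        have := (hεlim.smul_const (Q x)).add_const (G x)
        simpa using this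
      have h3 : Tendsto (fun n => ε n • fderiv ℝ Q x + fderiv ℝ G x) atTop
          (𝓝 (fderiv ℝ G x)) := by
        have := (hεlim.smul_const (fderiv ℝ Q x)).add_const (fderiv ℝ G x)
        simpa using this
      exact ((hg.tendsto _).comp h2).mul
        ((ContinuousLinearMap.continuous_det.tendsto _).comp h3)
  have hconst : Tendsto (fun n => ∫ x in S, g (ε n • Q x + G x) *
      (fderiv ℝ (fun x => ε n • Q x + G x) x).det ∂μ) atTop (𝓝 (∫ x, g x ∂μ)) := by
    have : (fun n => ∫ x in S, g (ε n • Q x + G x) *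
      (fderiv ℝ (fun x => ε n • Q x + G x) x).det ∂μ) = fun _ => ∫ x, g x ∂μ := by
      funext n; exact step (ε n) (hεpos n)
    rw [this]
    exact tendsto_const_nhds
  exact tendsto_nhds_unique hlim hconst

end Pool.Agent.BAN.H14
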